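import Pool.Agent.MWNP.Stmts
import Pool.Agent.Helper47_MWN.NEX

/-!
# MWNP, row PEX

An exchange in the language gives the exchange for the largest types, arbitrary period.
-/

namespace Pool.Agent.MWNP.H74

open Pool.Agent.Helper14_MV Pool.Agent.Helper2_MV Pool.Agent.MVO Pool.Agent.MWL Pool.Agent.MWS
  Pool.Agent.MWF Pool.Agent.MWN
open Pool.Agent.MWN.H47 (ns0 ns1 two_blk okb cs0 cs1 cs_two h12 cn_two cn0 cn1 sub_pair pair_mem
  sub_app sub_ins fp fst_other fst_cs mem_of_ty nb_not nb_other ones)

/-- `a t` letters `0` and `b t` letters `1` are put at the two ends of block `t`: the left end -/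
def PP (i : ℕ) (a b : ℕ → ℕ) (st : Bool) (t : ℕ) : List ℕ :=
  if t = i ∧ st = true then List.replicate (b t) 1 else List.replicate (a t) 0

/-- the right end -/
def QQ (i : ℕ) (a b : ℕ → ℕ) (st : Bool) (t : ℕ) : List ℕ :=
  if t = i ∧ st = true then List.replicate (a t) 0 else List.replicate (b t) 1

/-- the number of letters which are inserted -/
def mm (n : ℕ) (A : ℕ → Cd) (u : ℕ → ℕ) (t : ℕ) : ℕ :=
  if (A t).h = 2 then 2 + (n - 1) * u t else 0

theorem shn_symm {n k : ℕ} {a b : ℕ → ℕ} (h : Shn n k a b) : Shn n k b a := by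
  intro j hj
  rcases h j hj with h1 | ⟨h1, h2, h3⟩
  · exact Or.inl h1.symm
  · exact Or.inr ⟨h2, h1, h3.symm⟩

theorem shn_sh {n k : ℕ} {a b : ℕ → ℕ} (h : Shn n k a b) : Sh k a b := by
  intro j hj
  rcases h j hj with h1 | ⟨h1, h2, h3⟩
  · exact Or.inl h1
  · exact Or.inr ⟨h1, h2⟩

theorem cnt0 (i : ℕ) (a b : ℕ → ℕ) (st : Bool) (X : ℕ → List ℕ) (t : ℕ) :
    (PP i a b st t ++ X t ++ QQ i a b st t).count 0 = (X t).count 0 + a t := by
  unfold PP QQ
  split_ifs
  · simp [List.count_replicate]
  · simp [List.count_replicate]; omega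

theorem cnt1 (i : ℕ) (a b : ℕ → ℕ) (st : Bool) (X : ℕ → List ℕ) (t : ℕ) :
    (PP i a b st t ++ X t ++ QQ i a b st t).count 1 = (X t).count 1 + b t := by
  unfold PP QQ
  split_ifs
  · simp [List.count_replicate]; omega
  · simp [List.count_replicate]

theorem two_ins {k : ℕ} (i : ℕ) (a b : ℕ → ℕ) (st : Bool) {X : ℕ → List ℕ} (h : Two01 k X) :
    Two01 k (fun t => PP i a b st t ++ X t ++ QQ i a b st t) := by
  intro j hj c hc
  simp only [List.mem_append] at hc
  rcases hc with (hc | hc) | hc
  · unfold PP at hc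
    split_ifs at hc
    · exact Or.inr (List.eq_of_mem_replicate hc)
    · exact Or.inl (List.eq_of_mem_replicate hc)
  · exact h j hj c hc
  · unfold QQ at hc
    split_ifs at hc
    · exact Or.inl (List.eq_of_mem_replicate hc)
    · exact Or.inr (List.eq_of_mem_replicate hc)

theorem ins_eq (i : ℕ) (a b : ℕ → ℕ) (st : Bool) (l : List ℕ) :
    PP i a b st i ++ l ++ QQ i a b st i =
      (if st then List.replicate (b i) 1 ++ l ++ List.replicate (a i) 0
        else List.replicate (a i) 0 ++ l ++ List.replicate (b i) 1) := by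
  unfold PP QQ
  cases st <;> simp

theorem fst_ins (i : ℕ) (a b : ℕ → ℕ) (st : Bool) {l : List ℕ} (h : Fst st l) :
    Fst st (PP i a b st i ++ l ++ QQ i a b st i) := by
  rw [ins_eq]
  intro h'
  cases st
  · exact h (sub_ins (by decide) h')
  · exact h (sub_ins (by decide) h')

theorem not_fst_ins (i : ℕ) (a b : ℕ → ℕ) (st s : Bool) {l : List ℕ} (h : ¬ Fst s l) :
    ¬ Fst s (PP i a b st i ++ l ++ QQ i a b st i) := by
  unfold Fst at *
  rw [not_not] at *
  exact h.trans ((List.sublist_append_right _ _).trans (List.sublist_append_left _ _))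

theorem mem_rep {p c : ℕ} (hp : 1 ≤ p) : c ∈ List.replicate p c :=
  List.mem_replicate.2 ⟨by omega, rfl⟩

theorem fst_V {A B : ℕ → Cd} {a b : ℕ → ℕ} {i : ℕ} {st : Bool} {l : List ℕ} (hA : A i ≠ Cd.z)
    (hB : B i ≠ Cd.z) (h01 : ∀ c ∈ l, c = 0 ∨ c = 1) (h0 : (A i).sat (l.count 0) = true)
    (h1 : (B i).sat (l.count 1) = true) (ha1 : (A i).h = 1 → a i = 0)
    (ha2 : (A i).h = 2 → 1 ≤ a i) (hb1 : (B i).h = 1 → b i = 0) (hb2 : (B i).h = 2 → 1 ≤ b i)
    (h : ¬ Fst st l) :
    Fst (!st) (PP i a b st i ++ l ++ QQ i a b st i) ↔ Fst (!st) (nb (A i).h (B i).h st) := by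
  have hm0 : 0 ∈ l := by
    unfold Fst at h
    rw [not_not] at h
    cases st
    · exact (pair_mem h).2
    · exact (pair_mem h).1
  have hm1 : 1 ∈ l := by
    unfold Fst at h
    rw [not_not] at h
    cases st
    · exact (pair_mem h).1
    · exact (pair_mem h).2
  by_cases hh : (A i).h = 1 ∧ (B i).h = 1
  · have c0 := ones h0 hh.1
    have c1 := ones h1 hh.2
    have hl : l = nb 1 1 st := by
      have hlen : l.length = 2 := by
        have e : l.length = l.count 0 + l.count 1 := by
          clear h h0 h1 c0 c1 hm0 hm1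
          induction l with
          | nil => rfl
          | cons a l ih =>
            have h' := ih (fun c hc => h01 c (List.mem_cons_of_mem _ hc))
            rcases h01 a List.mem_cons_self with rfl | rfl
            · simp; omega
            · simp; omega
        omega
      unfold Fst at h
      rw [not_not] at h
      have h' : (if st = true then [0, 1] else [1, 0]) = l :=
        h.eq_of_length (by rw [hlen]; cases st <;> rfl)
      rw [← h']
      cases st <;> rfl
    rw [ins_eq, ha1 hh.1, hb1 hh.2, hh.1, hh.2, hl]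
    cases st <;> simp
  · have hA' := h12 hA
    have hB' := h12 hB
    have h2 : (A i).h = 2 ∨ (B i).h = 2 := by omega
    have e2 := nb_other hA' hB' h2 st
    refine iff_of_false ?_ e2
    rw [ins_eq]
    unfold Fst
    rw [not_not]
    cases st
    · simp only [Bool.not_false, if_true, Bool.false_eq_true, if_false]
      rcases h2 with h2 | h2
      · refine (sub_app (m := l) (l := List.replicate (a i) 0) (mem_rep (ha2 h2)) hm1).trans ?_
        exact List.sublist_append_left _ _
      · refine sub_app ?_ (mem_rep (hb2 h2))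
        exact List.mem_append_right _ hm0
    · simp only [Bool.not_true, if_true, Bool.false_eq_true, if_false]
      rcases h2 with h2 | h2
      · refine sub_app ?_ (mem_rep (ha2 h2))
        exact List.mem_append_right _ hm1
      · refine (sub_app (m := l) (l := List.replicate (b i) 1) (mem_rep (hb2 h2)) hm0).trans ?_
        exact List.sublist_append_left _ _

/-! ### the inserted numbers -/

theorem mm_one {n : ℕ} {A : ℕ → Cd} {u : ℕ → ℕ} {t : ℕ} (h : (A t).h = 1) : mm n A u t = 0 := by
  unfold mm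
  rw [if_neg (by omega)]

theorem mm_two {n : ℕ} {A : ℕ → Cd} {u : ℕ → ℕ} {t : ℕ} (h : (A t).h = 2) : 2 ≤ mm n A u t := by
  unfold mm
  rw [if_pos h]
  omega

theorem h_cases (c : Cd) : c.h = 0 ∨ c.h = 1 ∨ c.h = 2 := by
  cases c <;> simp [Cd.h]

theorem sat_ne {c : Cd} {p : ℕ} (h : c.sat p = true) (hc : c.h ≠ 2) : p = c.h := by
  cases c <;> simp_all [Cd.h, Cd.sat]

/-- the types after the insertion -/
theorem shn_ins {n k : ℕ} (hn : 1 ≤ n) {A : ℕ → Cd} {u w : ℕ → ℕ} (h : Sat k A u)
    (hw : ∀ t, w t = u t + mm n A u t) : Shn n k (fun j => (A j).h) w := by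
  intro t ht
  by_cases h2 : (A t).h = 2
  · right
    have e : w t = 2 + n * u t := by
      rw [hw]
      unfold mm
      rw [if_pos h2]
      obtain ⟨m, rfl⟩ : ∃ m, n = m + 1 := ⟨n - 1, by omega⟩
      simp only [Nat.add_sub_cancel]
      ring
    refine ⟨le_of_eq h2.symm, by omega, ?_⟩
    show (A t).h ≡ w t [MOD n]
    rw [e, h2]
    have h3 : 2 + 0 ≡ 2 + n * u t [MOD n] := by
      refine Nat.ModEq.add_left 2 ?_
      exact ((Nat.modEq_zero_iff_dvd.2 (Dvd.intro _ rfl)) : n * u t ≡ 0 [MOD n]).symm
    simpa using h3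
  · left
    show (A t).h = w t
    rw [hw]
    unfold mm
    rw [if_neg h2, add_zero]
    exact (sat_ne (h t ht) h2).symm

/-- the inserted numbers for related types are related -/
theorem mm_rel (hhvp : HvpStmt) (hdmx : DmxStmt) (hrmv : RmvStmt) (hclo : CloStmt) {n : ℕ}
    {β : FIC} (hLR : LR n (FC.ofFIC β)) {k : ℕ} {A : ℕ → Cd} {u v : ℕ → ℕ} (hu : Sat k A u)
    (hv : Sat k A v) (h : L1 β k u v) : L1 β k (mm n A u) (mm n A v) := by
  obtain ⟨d, m, hDM⟩ := hdmx n (FC.ofFIC β) hLR
  obtain ⟨h1, h2⟩ := (hrmv n (FC.ofFIC β) d m hLR hDM k u).2.2 v h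
  have key : ∀ w : ℕ → ℕ, ∀ t ≤ k, (A t).h = 2 → MWL.Ab n (FC.ofFIC β) k (mm n A w) t := by
    intro w t ht hh
    have h3 : 2 ≤ mm n A w t := mm_two hh
    exact (hhvp n (FC.ofFIC β) hLR k (mm n A w) t ht).1 ⟨by omega, t, le_rfl, h3⟩
  refine hclo n (FC.ofFIC β) d m hLR hDM k _ _
    ((Finset.range (k + 1)).filter (fun t => (A t).h = 2)) ?_ ?_ ?_ ?_
  · intro t ht
    rw [Finset.mem_filter, Finset.mem_range] at ht
    have ht' : t ≤ k := by omega
    exact ⟨ht', key u t ht' ht.2, key v t ht' ht.2⟩
  · intro t ht hS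
    have h3 : (A t).h ≠ 2 := by
      intro h4
      exact hS (Finset.mem_filter.2 ⟨Finset.mem_range.2 (by omega), h4⟩)
    unfold mm
    rw [if_neg h3, if_neg h3]
  · intro t ht
    unfold mm
    by_cases h3 : (A t).h = 2
    · rw [if_pos h3, if_pos h3]
      exact Nat.ModEq.add_left 2 (Nat.ModEq.mul_left _ (h1 t ht))
    · rw [if_neg h3, if_neg h3]
  · -- the degrees
    have e : ∀ w : ℕ → ℕ, Sat k A w → deg k (mm n A w) + (n - 1) *
        (∑ t ∈ Finset.range (k + 1), if (A t).h = 2 then 0 else (A t).h) =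
          (∑ t ∈ Finset.range (k + 1), if (A t).h = 2 then 2 else 0) + (n - 1) * deg k w := by
      intro w hw
      unfold deg
      rw [Finset.mul_sum, Finset.mul_sum, ← Finset.sum_add_distrib, ← Finset.sum_add_distrib]
      refine Finset.sum_congr rfl fun t ht => ?_
      rw [Finset.mem_range] at ht
      unfold mm
      by_cases h3 : (A t).h = 2
      · rw [if_pos h3, if_pos h3, if_pos h3]
        ring
      · rw [if_neg h3, if_neg h3, if_neg h3, sat_ne (hw t (by omega)) h3]
    have h3 : (n - 1) * deg k u ≡ (n - 1) * deg k v [MOD d] := Nat.ModEq.mul_left _ h2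
    have h4 := Nat.ModEq.add_left
      (∑ t ∈ Finset.range (k + 1), if (A t).h = 2 then 2 else 0) h3
    rw [← e u hu, ← e v hv] at h4
    exact Nat.ModEq.add_right_cancel' _ h4

theorem pex (hone : OneStmt) (hchk : ChkStmt) (hhvp : HvpStmt) (hdmx : DmxStmt) (hrmv : RmvStmt)
    (hclo : CloStmt) (hphb : PhbStmt) : PexStmt := by
  intro n β hB hiso k i A B st U V hi _ hAi hBi hdA hdB tU tV sA0 sB1 sA0' sB1' m0 m1 hr hU hV
  obtain ⟨-, -, hLR, -, -⟩ := hphb n β hB hiso
  have hn := hB.pos
  set a := mm n A (ty U 0) with ha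
  set b := mm n B (ty U 1) with hb
  set a' := mm n A (ty V 0) with ha'
  set b' := mm n B (ty V 1) with hb'
  have r1 := rr_ins' β (PP i a b st) (QQ i a b st) (two_blk tU) (two_blk tV) hr
  have L0 : L1 β k a a' :=
    mm_rel hhvp hdmx hrmv hclo hLR sA0 sA0'
      (hone.1 β k U V 0 (ns0 k) (two_blk tU) (two_blk tV) hr)
  have L1' : L1 β k b b' :=
    mm_rel hhvp hdmx hrmv hclo hLR sB1 sB1'
      (hone.1 β k U V 1 (ns1 k) (two_blk tU) (two_blk tV) hr)
  -- change of the inserted numbers
  have r2 : RR β (asm k (fun t => PP i a b st t ++ V t ++ QQ i a b st t))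
      (asm k (fun t => PP i a' b st t ++ V t ++ QQ i a' b st t)) := by
    have h := hchk β k a a' 0
      (fun t => if t = i ∧ st = true then List.replicate (b t) 1 ++ V t else [])
      (fun t => if t = i ∧ st = true then [] else V t ++ List.replicate (b t) 1) L0
    have e : ∀ x : ℕ → ℕ, asm k (fun t =>
        (if t = i ∧ st = true then List.replicate (b t) 1 ++ V t else []) ++
          List.replicate (x t) 0 ++
            (if t = i ∧ st = true then [] else V t ++ List.replicate (b t) 1)) =
        asm k (fun t => PP i x b st t ++ V t ++ QQ i x b st t) := by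
      intro x
      refine asm_congr fun t _ => ?_
      unfold PP QQ
      split_ifs <;> simp
    rw [e, e] at h
    exact h
  have r3 : RR β (asm k (fun t => PP i a' b st t ++ V t ++ QQ i a' b st t))
      (asm k (fun t => PP i a' b' st t ++ V t ++ QQ i a' b' st t)) := by
    have h := hchk β k b b' 1
      (fun t => if t = i ∧ st = true then [] else List.replicate (a' t) 0 ++ V t)
      (fun t => if t = i ∧ st = true then V t ++ List.replicate (a' t) 0 else []) L1'
    have e : ∀ x : ℕ → ℕ, asm k (fun t =>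
        (if t = i ∧ st = true then [] else List.replicate (a' t) 0 ++ V t) ++
          List.replicate (x t) 1 ++
            (if t = i ∧ st = true then V t ++ List.replicate (a' t) 0 else [])) =
        asm k (fun t => PP i a' x st t ++ V t ++ QQ i a' x st t) := by
      intro x
      refine asm_congr fun t _ => ?_
      unfold PP QQ
      split_ifs <;> simp
    rw [e, e] at h
    exact h
  -- the types
  have shU0 : Shn n k (fun j => (A j).h) (ty (fun t => PP i a b st t ++ U t ++ QQ i a b st t) 0) :=
    shn_ins hn sA0 (fun t => cnt0 i a b st U t)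
  have shU1 : Shn n k (fun j => (B j).h) (ty (fun t => PP i a b st t ++ U t ++ QQ i a b st t) 1) :=
    shn_ins hn sB1 (fun t => cnt1 i a b st U t)
  have shV0 : Shn n k (fun j => (A j).h)
      (ty (fun t => PP i a' b' st t ++ V t ++ QQ i a' b' st t) 0) :=
    shn_ins hn sA0' (fun t => cnt0 i a' b' st V t)
  have shV1 : Shn n k (fun j => (B j).h)
      (ty (fun t => PP i a' b' st t ++ V t ++ QQ i a' b' st t) 1) :=
    shn_ins hn sB1' (fun t => cnt1 i a' b' st V t)
  have tc0 : ty (cs i A B st) 0 = fun j => (A j).h := funext fun t => cs0 i A B st t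
  have tc1 : ty (cs i A B st) 1 = fun j => (B j).h := funext fun t => cs1 i A B st t
  have tn0 : ty (cn i A B st) 0 = fun j => (A j).h := funext fun t => cn0 hAi hBi st t
  have tn1 : ty (cn i A B st) 1 = fun j => (B j).h := funext fun t => cn1 hAi hBi st t
  have okU := okb (two_ins i a b st tU) hdA hdB (shn_sh shU0) (shn_sh shU1)
  have okV := okb (two_ins i a' b' st tV) hdA hdB (shn_sh shV0) (shn_sh shV1)
  have okc := okb (cs_two k i A B st) hdA hdB (fun t _ => Or.inl (by rw [tc0]))
    (fun t _ => Or.inl (by rw [tc1]))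
  have okn := okb (cn_two k i A B st) hdA hdB (fun t _ => Or.inl (by rw [tn0]))
    (fun t _ => Or.inl (by rw [tn1]))
  have hA' := h12 hAi
  have hB' := h12 hBi
  have mc0 : 0 ∈ cs i A B st i := mem_of_ty (cs0 i A B st i) (by omega)
  have mc1 : 1 ∈ cs i A B st i := mem_of_ty (cs1 i A B st i) (by omega)
  have mU0 : 0 ∈ PP i a b st i ++ U i ++ QQ i a b st i := by simp [m0]
  have mU1 : 1 ∈ PP i a b st i ++ U i ++ QQ i a b st i := by simp [m1]
  have hVp : (fp st).Sublist (V i) := by
    have := hV
    unfold Fst at this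
    rw [not_not] at this
    exact this
  have mV : 0 ∈ V i ∧ 1 ∈ V i := by
    unfold fp at hVp
    cases st
    · exact ⟨(pair_mem hVp).2, (pair_mem hVp).1⟩
    · exact ⟨(pair_mem hVp).1, (pair_mem hVp).2⟩
  have mV0 : 0 ∈ PP i a' b' st i ++ V i ++ QQ i a' b' st i := by simp [mV.1]
  have mV1 : 1 ∈ PP i a' b' st i ++ V i ++ QQ i a' b' st i := by simp [mV.2]
  have stU : ∀ s, Fst s (PP i a b st i ++ U i ++ QQ i a b st i) ↔ Fst s (cs i A B st i) := by
    intro s
    by_cases hs : s = st
    · subst hs
      exact iff_of_true (fst_ins i a b s hU) (fst_cs i A B s)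
    · have hs' : s = !st := by cases s <;> cases st <;> simp_all
      subst hs'
      exact iff_of_false (fst_other mU0 mU1 (fst_ins i a b st hU))
        (fst_other mc0 mc1 (fst_cs i A B st))
  have hcn : cn i A B st i = nb (A i).h (B i).h st := by unfold cn; rw [if_pos rfl]
  have stV : ∀ s, Fst s (PP i a' b' st i ++ V i ++ QQ i a' b' st i) ↔ Fst s (cn i A B st i) := by
    intro s
    rw [hcn]
    by_cases hs : s = st
    · subst hs
      exact iff_of_false (not_fst_ins i a' b' s s hV) (nb_not hA' hB' s)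
    · have hs' : s = !st := by cases s <;> cases st <;> simp_all
      subst hs'
      exact fst_V hAi hBi (fun c hc => tV i hi c hc) (sA0' i hi) (sB1' i hi)
        (fun h => mm_one h) (fun h => le_trans (by omega) (mm_two (n := n) (u := ty V 0) h))
        (fun h => mm_one h) (fun h => le_trans (by omega) (mm_two (n := n) (u := ty V 1) h)) hV
  have rU : RR β (asm k (fun t => PP i a b st t ++ U t ++ QQ i a b st t))
      (asm k (cs i A B st)) := by
    refine hB.hst k _ _ okU okc (two_ins i a b st tU) (cs_two k i A B st)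
      (by rw [tc0]; exact shn_symm shU0) (by rw [tc1]; exact shn_symm shU1) ?_
    intro i' hi' hc
    by_cases he : i = i'
    · subst he
      exact ⟨stU false, stU true⟩
    · exfalso
      rcases hc i hi he with h | h
      · exact h mU0
      · exact h mU1
  have rV : RR β (asm k (fun t => PP i a' b' st t ++ V t ++ QQ i a' b' st t))
      (asm k (cn i A B st)) := by
    refine hB.hst k _ _ okV okn (two_ins i a' b' st tV) (cn_two k i A B st)
      (by rw [tn0]; exact shn_symm shV0) (by rw [tn1]; exact shn_symm shV1) ?_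
    intro i' hi' hc
    by_cases he : i = i'
    · subst he
      exact ⟨stV false, stV true⟩
    · exfalso
      rcases hc i hi he with h | h
      · exact h mV0
      · exact h mV1
  exact β.trans (β.trans (RR.symm rU) r1) (β.trans r2 (β.trans r3 rV))

end Pool.Agent.MWNP.H74
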